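import Pool.Agent.SSX.All

set_option autoImplicit false

namespace Pool.Agent.Results.MP_d74fca_nt.AlmostAll

/-- For every elliptic curve over `ℚ` with `j ≠ 0, 1728` (integral Weierstrass equation `W`) the
number `N(x)` of primes `p ≤ x`, `p ∤ Δ(W)`, `a_p = 0`, is at least `(log x) ^ (2 - ε)` for almost
all `x` on the scale `log log log x`: the set of `v ∈ [0, V]` for which `x = exp (exp (exp v))`
does not satisfy this has measure at most `C log V`. -/
theorem result (W : WeierstrassCurve ℤ) (hΔ : W.Δ ≠ 0) (h4 : W.c₄ ≠ 0) (h6 : W.c₆ ≠ 0) :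
    ∀ ε : ℝ, 0 < ε → ∃ C V₀ : ℝ, ∀ V : ℝ, V₀ ≤ V →
      MeasureTheory.volume {v : ℝ | 0 ≤ v ∧ v ≤ V ∧
        (SSF.cnt W 0 (Real.exp (Real.exp (Real.exp v))) : ℝ) <
          (Real.log (Real.exp (Real.exp (Real.exp v)))) ^ (2 - ε)} ≤
      ENNReal.ofReal (C * Real.log V) :=
  fun ε hε => SSX.All.final W hΔ h4 h6 ε hε

end Pool.Agent.Results.MP_d74fca_nt.AlmostAll
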