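import Pool.Agent.SSL.Final

set_option autoImplicit false

namespace Pool.Agent.Results.MP_d74fca_nt.CommonSupersingular

/-- Let `W` be an integral Weierstrass equation with `j ≠ 0, 1728` and `L` a finite set of primes
`l ≥ 5`, `l ∤ c₄ c₆`, `a_l ≠ 0`. For every `ε > 0` there are arbitrarily large `x` with at least
`(log x) ^ (2 - ε)` primes `p ≤ x`, `p ∤ Δ(W)`, `a_p = 0`, such that for every `l ∈ L` the number
`-p` is a square modulo `l` and, if `l ≡ 3 mod 4`, `p` is inert in `ℚ(√-l)`. -/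
theorem result (W : WeierstrassCurve ℤ) (hΔ : W.Δ ≠ 0) (h4 : W.c₄ ≠ 0) (h6 : W.c₆ ≠ 0)
    (L : Finset ℕ) (hL : ∀ l ∈ L, l.Prime ∧ 5 ≤ l ∧ ¬ (l : ℤ) ∣ W.c₄ * W.c₆ ∧ SSF.ap W l ≠ 0) :
    ∀ ε : ℝ, 0 < ε → ∀ x₀ : ℝ, ∃ x : ℝ, x₀ ≤ x ∧
      (Real.log x) ^ (2 - ε) ≤ (SSL.cntL W L x : ℝ) :=
  fun ε hε x₀ => SSL.All.final W hΔ h4 h6 L hL ε hε x₀

end Pool.Agent.Results.MP_d74fca_nt.CommonSupersingular
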