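import Pool.Agent.SSG.All2
import Pool.Agent.SSF.WEI

set_option autoImplicit false

namespace Pool.Agent.Results.MP_d74fca_nt.Dichotomy

/-- For every elliptic curve over `ℚ` with `j ≠ 0, 1728` (integral Weierstrass equation `W`), the
number of primes `p ≤ x`, `p ∤ Δ(W)`, `a_p = 0`, is EITHER larger than `c √x / (log x) ^ 2` for
arbitrarily large `x`, OR at least `c (log x) ^ 2 / (log log x) ^ 5` for ALL large `x`, with some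
`c > 0`. -/
theorem result (W : WeierstrassCurve ℤ) (hΔ : W.Δ ≠ 0) (h4 : W.c₄ ≠ 0) (h6 : W.c₆ ≠ 0) :
    (∃ c : ℝ, 0 < c ∧ ∀ x₀ : ℝ, ∃ x : ℝ, x₀ ≤ x ∧
      c * (√x / (Real.log x) ^ 2) < (SSF.cnt W 0 x : ℝ)) ∨
    (∃ c x₀ : ℝ, 0 < c ∧ ∀ x : ℝ, x₀ ≤ x →
      c * ((Real.log x) ^ 2 / (Real.log (Real.log x)) ^ 5) ≤ (SSF.cnt W 0 x : ℝ)) := by
  rcases SSG.All.dichotomy2 (-27 * W.c₄) (-54 * W.c₆) (mul_ne_zero (by norm_num) h4)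
    (mul_ne_zero (by norm_num) h6) (SSF.p_WEK W hΔ) with h | h
  · left
    obtain ⟨c, hc, h1⟩ := h
    refine ⟨c, hc, fun x₀ => ?_⟩
    obtain ⟨x, hx, h2⟩ := h1 x₀
    exact ⟨x, hx, lt_of_lt_of_le h2 (SSF.p_WEJ W x)⟩
  · right
    obtain ⟨c, x₁, hc, h1⟩ := h
    exact ⟨c, x₁, hc, fun x hx => (h1 x hx).trans (SSF.p_WEJ W x)⟩

end Pool.Agent.Results.MP_d74fca_nt.Dichotomy
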