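import Pool.Agent.SSD.All
import Pool.Agent.SSF.WEI

set_option autoImplicit false

namespace Pool.Agent.Results.MP_d74fca_nt.SupersingularAllX

/-- For every elliptic curve over `ℚ` with `j ≠ 0, 1728` (integral Weierstrass equation `W`), every
`η > 2` and ALL large `x` there are at least `exp (log log x / (log log log x) ^ η)` primes `p ≤ x`,
`p ∤ Δ(W)`, `a_p = 0`. -/
theorem result (W : WeierstrassCurve ℤ) (hΔ : W.Δ ≠ 0) (h4 : W.c₄ ≠ 0) (h6 : W.c₆ ≠ 0)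
    (η : ℝ) (hη : 2 < η) :
    ∃ x₀ : ℝ, ∀ x : ℝ, x₀ ≤ x →
      Real.exp (Real.log (Real.log x) / (Real.log (Real.log (Real.log x))) ^ η) ≤
        (SSF.cnt W 0 x : ℝ) := by
  obtain ⟨M, ρ, hD⟩ := SSF.All.SSF_DATA (-27 * W.c₄) (-54 * W.c₆) (mul_ne_zero (by norm_num) h4)
    (mul_ne_zero (by norm_num) h6) (SSF.p_WEK W hΔ)
  obtain ⟨Q, A, hQ⟩ := SSD.All.SSD_CLS (-27 * W.c₄) (-54 * W.c₆) (SSF.p_WEK W hΔ)
  obtain ⟨x₀, h⟩ := SSD.All.SSD_FA3 _ _ M ρ Q A hD hQ η hη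
  exact ⟨x₀, fun x hx => (h x hx).trans (SSF.p_WEJ W x)⟩

end Pool.Agent.Results.MP_d74fca_nt.SupersingularAllX
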